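import Pool.Agent.Lib.MP_04668c_co.E.Base

/-!
Module DIRS: the palette.
-/

set_option autoImplicit false
set_option linter.unusedSectionVars false

namespace Pool.Agent.Lib.MP_04668c_co.E.H7

open Finset Classical Module
open Pool.Agent.Lib.MP_04668c_co

/-- the value of a perturbed shape in terms of finitely many data: the colour, the number and the
type of the base vertex, the choices, the number of the vertex -/
noncomputable def pal {b : ℕ} (τ t : ℝ) (ρ : Fin b × Fin 2 → Fin 5 → ℝ) (i : ℕ)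
    (jj : Fin b × Fin 2) (m : Fin b × Fin 2 → Fin 5 → Bool) (k : Fin b) : ℝ × ℝ :=
  ((if k = jj.1 then e2 jj.2 else 0) + τ • shp ((i : ℝ) + 2) k.val) +
    t • ∑ α : Fin b × Fin 2, ∑ l : Fin 5, if k.val = α.1.val ∧ m α l = true then
      ρ α l • e2 α.2 else 0

theorem dirs : DirsStatement := by
  intro V X _ _ B b s idx j a τ t c ρ μ hN hj
  refine ⟨(univ : Finset (Fin s × (Fin b × Fin 2) × (Fin b × Fin 2 → Fin 5 → Bool) ×
    (Fin b × Fin b))).image (fun z => pal τ t ρ z.1.val z.2.1 z.2.2.1 z.2.2.2.1 -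
      pal τ t ρ z.1.val z.2.1 z.2.2.1 z.2.2.2.2), ?_, ?_⟩
  · refine card_image_le.trans (le_of_eq ?_)
    rw [card_univ]
    simp only [Fintype.card_prod, Fintype.card_fin, Fintype.card_pi, Fintype.card_bool,
      prod_const, card_univ]
    unfold numD
    rw [← pow_mul, Nat.mul_comm 5 (b * 2)]
    ring
  · intro x u v hu hv
    have key : ∀ (y : V) (hy : y ∈ B x),
        ((fun x => qs idx j a τ (c x).val x) + t • dl idx ρ μ : X → V → ℝ × ℝ) x y =
          pal τ t ρ (c x).val (⟨idx x (j x), (hN x).2 _ (hj x)⟩, a x) (fun α l => μ α l x)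
            ⟨idx x y, (hN x).2 _ hy⟩ := by
      intro y hy
      have e1 : (Pi.single (j x) (e2 (a x)) : V → ℝ × ℝ) y =
          if (⟨idx x y, (hN x).2 _ hy⟩ : Fin b) = ⟨idx x (j x), (hN x).2 _ (hj x)⟩ then
            e2 (a x) else 0 := by
        by_cases h : y = j x
        · subst h
          rw [Pi.single_eq_same, if_pos rfl]
        · rw [Pi.single_eq_of_ne h, if_neg]
          intro h'
          exact h ((hN x).1 y hy (j x) (hj x) (Fin.mk.inj h'))
      simp only [Pi.add_apply, Pi.smul_apply]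
      unfold pal qs dl
      rw [e1]
    rw [mem_image]
    refine ⟨(c x, (⟨idx x (j x), (hN x).2 _ (hj x)⟩, a x), (fun α l => μ α l x),
      (⟨idx x v, (hN x).2 _ hv⟩, ⟨idx x u, (hN x).2 _ hu⟩)), mem_univ _, ?_⟩
    rw [key v hv, key u hu]

end Pool.Agent.Lib.MP_04668c_co.E.H7
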