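import Pool.Agent.Lib.MP_04668c_co.E.Base

/-!
Modules EXPN and EDGES.
-/

set_option autoImplicit false
set_option linter.unusedSectionVars false

namespace Pool.Agent.Lib.MP_04668c_co.E.H7

open Finset Classical Module
open Pool.Agent.Lib.MP_04668c_co

theorem mem_bdry {V : Type} [Fintype V] (G : SimpleGraph V) (Y : Finset V) (p : V × V) :
    p ∈ bdry G Y ↔ p.1 ∈ Y ∧ p.2 ∉ Y ∧ G.Adj p.1 p.2 := by
  unfold bdry
  rw [mem_filter, mem_product, mem_compl, and_assoc]

theorem deg_count {V : Type} [Fintype V] (G : SimpleGraph V) (hG : Deg4 G) (Q : Finset V) :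
    (pairs G Q).card + (bdry G Q).card ≤ 4 * Q.card := by
  have hdis : Disjoint (pairs G Q) (bdry G Q) := by
    rw [Finset.disjoint_left]
    intro p h1 h2
    rw [mem_pairs] at h1
    rw [mem_bdry] at h2
    exact h2.2.1 h1.2.1
  rw [← card_union_of_disjoint hdis]
  have hsub : pairs G Q ∪ bdry G Q ⊆
      Q.biUnion (fun v => (univ.filter (fun u => G.Adj v u)).image (fun u => (v, u))) := by
    intro p hp
    rw [mem_union, mem_pairs, mem_bdry] at hp
    rw [mem_biUnion]
    refine ⟨p.1, ?_, ?_⟩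
    · rcases hp with h | h
      · exact h.1
      · exact h.1
    · rw [mem_image]
      refine ⟨p.2, ?_, rfl⟩
      rw [mem_filter]
      refine ⟨mem_univ _, ?_⟩
      rcases hp with h | h
      · exact h.2.2
      · exact h.2.2
  refine (card_le_card hsub).trans ?_
  refine (card_biUnion_le_card_mul Q _ 4 ?_).trans (by rw [mul_comm])
  intro v _
  exact card_image_le.trans (hG v)

theorem bdry_compl {V : Type} [Fintype V] (G : SimpleGraph V) (Q : Finset V) :
    (bdry G Qᶜ).card = (bdry G Q).card := by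
  have h : bdry G Qᶜ = (bdry G Q).image Prod.swap := by
    ext p
    rw [mem_bdry, mem_image]
    constructor
    · rintro ⟨h1, h2, h3⟩
      refine ⟨p.swap, ?_, Prod.swap_swap p⟩
      rw [mem_bdry]
      rw [mem_compl] at h1 h2
      exact ⟨not_not.1 h2, h1, h3.symm⟩
    · rintro ⟨q, hq, rfl⟩
      rw [mem_bdry] at hq
      rw [mem_compl, mem_compl]
      exact ⟨hq.2.1, fun h => h hq.1, hq.2.2.symm⟩
  rw [h, card_image_of_injective _ Prod.swap_injective]

theorem expn : ExpnStatement := by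
  intro V _ G n₀ hn hD hE
  refine ⟨fun Q hQ => ?_, fun Q hQ => ?_⟩
  · have h1 := deg_count G hD Q
    have h2 := hE Q hQ
    calc n₀ * (pairs G Q).card + Q.card ≤ n₀ * (pairs G Q).card + n₀ * (bdry G Q).card := by
          omega
      _ = n₀ * ((pairs G Q).card + (bdry G Q).card) := by ring
      _ ≤ n₀ * (4 * Q.card) := Nat.mul_le_mul_left _ h1
      _ = 4 * n₀ * Q.card := by ring
  · have h1 := deg_count G hD Q
    have hc : 2 * Qᶜ.card ≤ Fintype.card V := by
      rw [card_compl]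
      omega
    have h2 := hE Qᶜ hc
    rw [bdry_compl] at h2
    calc n₀ * (pairs G Q).card + Qᶜ.card ≤ n₀ * (pairs G Q).card + n₀ * (bdry G Q).card := by
          omega
      _ = n₀ * ((pairs G Q).card + (bdry G Q).card) := by ring
      _ ≤ n₀ * (4 * Q.card) := Nat.mul_le_mul_left _ h1
      _ = 4 * n₀ * Q.card := by ring

theorem edges : EdgesStatement := by
  intro V _ H 𝓚 Q h1 h2
  have hdis : ∀ A ∈ 𝓚, ∀ A' ∈ 𝓚, A ≠ A' → Disjoint (pairs H A) (pairs H A') := by
    intro A hA A' hA' hne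
    rw [Finset.disjoint_left]
    intro p hp hp'
    rw [mem_pairs] at hp hp'
    have h3 := h2 A hA A' hA' hne
    rw [card_le_one] at h3
    have h4 := h3 p.1 (mem_inter.2 ⟨hp.1, hp'.1⟩) p.2 (mem_inter.2 ⟨hp.2.1, hp'.2.1⟩)
    exact H.ne_of_adj hp.2.2 h4
  have hcard : (𝓚.biUnion (fun A => pairs H A)).card = ∑ A ∈ 𝓚, (pairs H A).card :=
    card_biUnion hdis
  have hsub : 𝓚.biUnion (fun A => pairs H A) ⊆ pairs H Q := by
    intro p hp
    rw [mem_biUnion] at hp
    obtain ⟨A, hA, hpA⟩ := hp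
    rw [mem_pairs] at hpA ⊢
    exact ⟨(h1 A hA).2.1 hpA.1, (h1 A hA).2.1 hpA.2.1, hpA.2.2⟩
  rw [mul_sum]
  calc ∑ A ∈ 𝓚, 2 * (2 * A.card - 3) ≤ ∑ A ∈ 𝓚, (pairs H A).card := by
        apply sum_le_sum
        intro A hA
        have := (h1 A hA).2.2
        omega
    _ = (𝓚.biUnion (fun A => pairs H A)).card := hcard.symm
    _ ≤ (pairs H Q).card := card_le_card hsub

end Pool.Agent.Lib.MP_04668c_co.E.H7
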